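import Mathlib

namespace Pool.Agent.V113.FP

/-- `a(n) = ∑ d τ(d)` over the divisors `d` of `n` with `d < n`. -/
def properSum (n : ℕ) : ℕ := ∑ d ∈ n.properDivisors, d * d.divisors.card

end Pool.Agent.V113.FP
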