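import Mathlib
import Pool.Agent.V113.FP.Def

namespace Pool.Agent.V113.FP

theorem quot_lt {n : ℕ} (hn : 0 < n) (hfix : properSum n = n) {p : ℕ} (hp : p.Prime)
    (hpn : p ∣ n) : (n / p).divisors.card < p := by
  obtain ⟨m, rfl⟩ := hpn
  have hm : 0 < m := Nat.pos_of_mul_pos_left hn
  rw [Nat.mul_div_cancel_left _ hp.pos]
  by_cases h1 : m = 1
  · subst h1
    simpa using hp.one_lt
  · have hsub : ({1, m} : Finset ℕ) ⊆ (p * m).properDivisors := by
      intro x hx
      simp only [Finset.mem_insert, Finset.mem_singleton] at hx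
      have h2 := hp.two_le
      rw [Nat.mem_properDivisors]
      rcases hx with rfl | rfl
      · exact ⟨one_dvd _, by nlinarith⟩
      · exact ⟨dvd_mul_left _ _, by nlinarith⟩
    have hle : ∑ d ∈ ({1, m} : Finset ℕ), d * d.divisors.card ≤ properSum (p * m) :=
      Finset.sum_le_sum_of_subset hsub
    rw [Finset.sum_pair (Ne.symm h1), hfix] at hle
    simp only [Nat.divisors_one, Finset.card_singleton, mul_one] at hle
    by_contra hcon
    push Not at hcon
    nlinarith

/-- The divisor sum of a squarefree number. -/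
theorem sum_squarefree {n : ℕ} (hn : Squarefree n) :
    ∏ p ∈ n.primeFactors, (1 + 2 * p) = ∑ d ∈ n.divisors, d * d.divisors.card := by
  have hmul : (ArithmeticFunction.pmul (ArithmeticFunction.id : ArithmeticFunction ℕ)
      (ArithmeticFunction.sigma 0)).IsMultiplicative :=
    ArithmeticFunction.isMultiplicative_id.pmul ArithmeticFunction.isMultiplicative_sigma
  have h := hmul.prodPrimeFactors_one_add_of_squarefree hn
  simp only [ArithmeticFunction.pmul_apply, ArithmeticFunction.id_apply,
    ArithmeticFunction.sigma_zero_apply] at h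
  rw [← h]
  apply Finset.prod_congr rfl
  intro p hp
  have hpp := Nat.prime_of_mem_primeFactors hp
  have : p.divisors.card = 2 := by
    rw [hpp.divisors, Finset.card_pair hpp.one_lt.ne]
  rw [this]; ring

theorem card_squarefree {n : ℕ} (hn : Squarefree n) :
    n.divisors.card = 2 ^ n.primeFactors.card := by
  rw [Nat.card_divisors hn.ne_zero]
  rw [← Finset.prod_const]
  apply Finset.prod_congr rfl
  intro p hp
  have hpp := Nat.prime_of_mem_primeFactors hp
  rw [Nat.factorization_eq_one_of_squarefree hn hpp (Nat.dvd_of_mem_primeFactors hp)]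

theorem fix_total {n : ℕ} (hn : 0 < n) (hfix : properSum n = n) :
    ∑ d ∈ n.divisors, d * d.divisors.card = n * (1 + n.divisors.card) := by
  rw [← Nat.insert_self_properDivisors hn.ne', Finset.sum_insert Nat.self_notMem_properDivisors]
  have : ∑ d ∈ n.properDivisors, d * d.divisors.card = n := hfix
  rw [this, Nat.insert_self_properDivisors hn.ne']
  ring

theorem fix_squarefree {n : ℕ} (hs : Squarefree n) (hfix : properSum n = n) :
    ∏ p ∈ n.primeFactors, (1 + 2 * p) = n * (1 + 2 ^ n.primeFactors.card) := by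
  rw [sum_squarefree hs, fix_total (Nat.pos_of_ne_zero hs.ne_zero) hfix, card_squarefree hs]

theorem odd_fix {n : ℕ} (hn : 0 < n) (hfix : properSum n = n) : ¬ 2 ∣ n := by
  intro h2
  have h := quot_lt hn hfix Nat.prime_two h2
  obtain ⟨m, rfl⟩ := h2
  rw [Nat.mul_div_cancel_left _ two_pos] at h
  have hm : 0 < m := by omega
  by_cases h1 : m = 1
  · subst h1
    revert hfix
    decide
  · have hsub : ({1, m} : Finset ℕ) ⊆ m.divisors := by
      intro x hx
      simp only [Finset.mem_insert, Finset.mem_singleton] at hx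
      rw [Nat.mem_divisors]
      rcases hx with rfl | rfl
      · exact ⟨one_dvd _, hm.ne'⟩
      · exact ⟨dvd_rfl, hm.ne'⟩
    have hc := Finset.card_le_card hsub
    rw [Finset.card_pair (Ne.symm h1)] at hc
    omega

theorem three_fix {n : ℕ} (hn : 0 < n) (hfix : properSum n = n) (h3 : 3 ∣ n) : n = 21 := by
  have h := quot_lt hn hfix Nat.prime_three h3
  obtain ⟨m, rfl⟩ := h3
  rw [Nat.mul_div_cancel_left _ three_pos] at h
  have hm : 0 < m := by omega
  by_cases h1 : m = 1
  · subst h1
    revert hfix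
    decide
  · have hmp : m.Prime := by
      by_contra hnp
      have hq := Nat.minFac_prime h1
      have hne : m.minFac ≠ m := by
        intro he
        rw [he] at hq
        exact hnp hq
      have hsub : ({1, m.minFac, m} : Finset ℕ) ⊆ m.divisors := by
        intro x hx
        simp only [Finset.mem_insert, Finset.mem_singleton] at hx
        rw [Nat.mem_divisors]
        rcases hx with rfl | rfl | rfl
        · exact ⟨one_dvd _, hm.ne'⟩
        · exact ⟨Nat.minFac_dvd _, hm.ne'⟩
        · exact ⟨dvd_rfl, hm.ne'⟩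
      have hc := Finset.card_le_card hsub
      rw [Finset.card_insert_of_notMem, Finset.card_pair hne] at hc
      · omega
      · simp only [Finset.mem_insert, Finset.mem_singleton, not_or]
        exact ⟨hq.one_lt.ne, Ne.symm h1⟩
    by_cases hm3 : m = 3
    · subst hm3
      revert hfix
      decide
    · have hcop : Nat.Coprime 3 m := (Nat.coprime_primes Nat.prime_three hmp).2 (Ne.symm hm3)
      have hs : Squarefree (3 * m) :=
        (Nat.squarefree_mul hcop).2 ⟨Nat.prime_three.squarefree, hmp.squarefree⟩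
      have hf := fix_squarefree hs hfix
      have hpf : (3 * m).primeFactors = {3, m} := by
        rw [Nat.primeFactors_mul (by norm_num) hm.ne', Nat.prime_three.primeFactors,
          hmp.primeFactors]
        rfl
      rw [hpf, Finset.prod_pair (Ne.symm hm3), Finset.card_pair (Ne.symm hm3)] at hf
      omega

theorem prod_primes_mod {s : Finset ℕ} (hs : ∀ p ∈ s, p % 3 = 2) :
    (∏ p ∈ s, (1 + 2 * p)) % 3 = (∏ p ∈ s, p) % 3 := by
  rw [Finset.prod_nat_mod, Finset.prod_nat_mod s 3 (fun p => p)]
  congr 1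
  apply Finset.prod_congr rfl
  intro p hp
  have := hs p hp
  omega

theorem squarefree_odd {n : ℕ} (hs : Squarefree n) (hfix : properSum n = n) (h21 : n ≠ 21) :
    Odd n.primeFactors.card := by
  have hn : 0 < n := Nat.pos_of_ne_zero hs.ne_zero
  have h3 : ¬ 3 ∣ n := fun h => h21 (three_fix hn hfix h)
  have hf := fix_squarefree hs hfix
  have hprod : ∏ p ∈ n.primeFactors, p = n := Nat.prod_primeFactors_of_squarefree hs
  by_contra hodd
  rw [Nat.not_odd_iff_even] at hodd
  obtain ⟨k, hk⟩ := hodd
  have h2k : 2 ^ n.primeFactors.card % 3 = 1 := by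
    rw [hk, ← two_mul, pow_mul, Nat.pow_mod]
    norm_num
  by_cases hall : ∀ p ∈ n.primeFactors, p % 3 = 2
  · have h := prod_primes_mod hall
    rw [hf, hprod, Nat.mul_mod, Nat.add_mod, h2k] at h
    have : n % 3 = 0 ∨ n % 3 = 1 ∨ n % 3 = 2 := by omega
    rcases this with h0 | h0 | h0
    · exact h3 (Nat.dvd_of_mod_eq_zero h0)
    · rw [h0] at h; norm_num at h
    · rw [h0] at h; norm_num at h
  · push Not at hall
    obtain ⟨p, hp, hp2⟩ := hall
    have hp3 : p % 3 ≠ 0 := by
      intro h0
      exact h3 ((Nat.dvd_of_mod_eq_zero h0).trans (Nat.dvd_of_mem_primeFactors hp))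
    have hd : 3 ∣ 1 + 2 * p := by omega
    have hd2 : 3 ∣ n * (1 + 2 ^ n.primeFactors.card) := by
      rw [← hf]
      exact hd.trans (Finset.dvd_prod_of_mem _ hp)
    rcases (Nat.Prime.dvd_mul Nat.prime_three).1 hd2 with h | h
    · exact h3 h
    · omega

/-- `f(p^k) = ∑_{i ≤ k} (i+1) p^i`. -/
def loc (p k : ℕ) : ℕ := ∑ i ∈ Finset.range (k + 1), p ^ i * (i + 1)

theorem total_eq_prod {n : ℕ} (hn : n ≠ 0) :
    ∑ d ∈ n.divisors, d * d.divisors.card = ∏ p ∈ n.primeFactors, loc p (n.factorization p) := by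
  have hmul : ((ArithmeticFunction.pmul (ArithmeticFunction.id : ArithmeticFunction ℕ)
      (ArithmeticFunction.sigma 0)) * ArithmeticFunction.zeta).IsMultiplicative :=
    (ArithmeticFunction.isMultiplicative_id.pmul ArithmeticFunction.isMultiplicative_sigma).mul
      ArithmeticFunction.isMultiplicative_zeta
  have h := hmul.multiplicative_factorization _ hn
  rw [ArithmeticFunction.mul_zeta_apply] at h
  simp only [ArithmeticFunction.pmul_apply, ArithmeticFunction.id_apply,
    ArithmeticFunction.sigma_zero_apply] at h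
  rw [h, Finsupp.prod, Nat.support_factorization]
  apply Finset.prod_congr rfl
  intro p hp
  have hpp := Nat.prime_of_mem_primeFactors hp
  rw [ArithmeticFunction.mul_zeta_apply]
  simp only [ArithmeticFunction.pmul_apply, ArithmeticFunction.id_apply,
    ArithmeticFunction.sigma_zero_apply]
  rw [Nat.sum_divisors_prime_pow hpp, loc]
  apply Finset.sum_congr rfl
  intro i _
  rw [← ArithmeticFunction.sigma_zero_apply, ArithmeticFunction.sigma_zero_apply_prime_pow hpp]

theorem loc_mod_two {p : ℕ} (hp : p % 2 = 1) (m : ℕ) :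
    (∑ i ∈ Finset.range m, p ^ i * (i + 1)) % 2 = if m % 4 = 1 ∨ m % 4 = 2 then 1 else 0 := by
  induction m with
  | zero => simp
  | succ m ih =>
    rw [Finset.sum_range_succ]
    have hpm : (p ^ m * (m + 1)) % 2 = (m + 1) % 2 := by
      rw [Nat.mul_mod, Nat.pow_mod, hp]
      simp
    rw [Nat.add_mod, ih, hpm]
    have : m % 4 = 0 ∨ m % 4 = 1 ∨ m % 4 = 2 ∨ m % 4 = 3 := by omega
    rcases this with h | h | h | h
    · have h1 : (m + 1) % 4 = 1 := by omega
      have h2 : (m + 1) % 2 = 1 := by omega
      simp [h, h1, h2]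
    · have h1 : (m + 1) % 4 = 2 := by omega
      have h2 : (m + 1) % 2 = 0 := by omega
      simp [h, h1, h2]
    · have h1 : (m + 1) % 4 = 3 := by omega
      have h2 : (m + 1) % 2 = 1 := by omega
      simp [h, h1, h2]
    · have h1 : (m + 1) % 4 = 0 := by omega
      have h2 : (m + 1) % 2 = 0 := by omega
      simp [h, h1, h2]

theorem isSquare_of_even {n : ℕ} (hn : n ≠ 0) (h : ∀ p ∈ n.primeFactors, Even (n.factorization p)) :
    IsSquare n := by
  refine ⟨∏ p ∈ n.primeFactors, p ^ (n.factorization p / 2), ?_⟩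
  rw [← Finset.prod_mul_distrib]
  conv_lhs => rw [← Nat.prod_factorization_pow_eq_self hn]
  rw [Finsupp.prod, Nat.support_factorization]
  apply Finset.prod_congr rfl
  intro p hp
  obtain ⟨k, hk⟩ := h p hp
  rw [hk, ← pow_add]
  congr 1
  omega

theorem exp_mod_four {n : ℕ} (hn : 0 < n) (hfix : properSum n = n) (hsq : ¬ IsSquare n)
    {p : ℕ} (hp : p ∈ n.primeFactors) :
    n.factorization p % 4 = 0 ∨ n.factorization p % 4 = 1 := by
  have hodd := odd_fix hn hfix
  have htot := fix_total hn hfix
  rw [total_eq_prod hn.ne'] at htot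
  have hev : 2 ∣ n.divisors.card := by
    by_contra hne
    apply hsq
    apply isSquare_of_even hn.ne'
    intro q hq
    by_contra hqe
    rw [Nat.not_even_iff_odd] at hqe
    apply hne
    rw [Nat.card_divisors hn.ne']
    refine dvd_trans ?_ (Finset.dvd_prod_of_mem _ hq)
    obtain ⟨k, hk⟩ := hqe
    omega
  have hr : ¬ 2 ∣ n * (1 + n.divisors.card) := by
    intro h
    rcases (Nat.Prime.dvd_mul Nat.prime_two).1 h with h | h
    · exact hodd h
    · omega
  have hl : ¬ 2 ∣ loc p (n.factorization p) := by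
    intro h
    apply hr
    rw [← htot]
    exact h.trans (Finset.dvd_prod_of_mem _ hp)
  have hp2 : p % 2 = 1 := by
    have : ¬ 2 ∣ p := fun h => hodd (h.trans (Nat.dvd_of_mem_primeFactors hp))
    omega
  have h := loc_mod_two hp2 (n.factorization p + 1)
  have hl' : loc p (n.factorization p) % 2 = 1 := by omega
  rw [loc] at hl'
  rw [hl'] at h
  by_contra hcon
  rw [if_neg (by omega)] at h
  omega

theorem fix_ne_one {n : ℕ} (hfix : properSum n = n) : n ≠ 1 := by
  rintro rfl
  revert hfix
  decide

theorem three_pow_mod (r : ℕ) : 3 ^ r % 8 = if r % 2 = 0 then 1 else 3 := by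
  induction r with
  | zero => simp
  | succ r ih =>
    rw [pow_succ, Nat.mul_mod, ih]
    have : r % 2 = 0 ∨ r % 2 = 1 := by omega
    rcases this with h | h
    · have h' : (r + 1) % 2 = 1 := by omega
      simp [h, h']
    · have h' : (r + 1) % 2 = 0 := by omega
      simp [h, h']

theorem squarefree_of_biquadratefree {n : ℕ} (hn : 0 < n) (hfix : properSum n = n)
    (h4 : ∀ p, p.Prime → ¬ p ^ 4 ∣ n) : Squarefree n := by
  have hlt : ∀ p ∈ n.primeFactors, n.factorization p < 4 := by
    intro p hp
    have hpp := Nat.prime_of_mem_primeFactors hp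
    by_contra hge
    push Not at hge
    exact h4 p hpp ((hpp.pow_dvd_iff_le_factorization hn.ne').2 hge)
  by_cases hev : ∀ p ∈ n.primeFactors, Even (n.factorization p)
  · exfalso
    have hodd := odd_fix hn hfix
    have htot := fix_total hn hfix
    rw [total_eq_prod hn.ne', Nat.card_divisors hn.ne'] at htot
    have h2 : ∀ p ∈ n.primeFactors, n.factorization p = 2 := by
      intro p hp
      have hpp := Nat.prime_of_mem_primeFactors hp
      have h1 := (hpp.dvd_iff_one_le_factorization hn.ne').1 (Nat.dvd_of_mem_primeFactors hp)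
      have := hlt p hp
      obtain ⟨k, hk⟩ := hev p hp
      omega
    have e1 : ∏ p ∈ n.primeFactors, loc p (n.factorization p)
        = 2 ^ n.primeFactors.card * ∏ p ∈ n.primeFactors, ((1 + 2 * p + 3 * p ^ 2) / 2) := by
      rw [← Finset.prod_const, ← Finset.prod_mul_distrib]
      apply Finset.prod_congr rfl
      intro p hp
      rw [h2 p hp]
      have hp2 : p % 2 = 1 := by
        have : ¬ 2 ∣ p := fun h => hodd (h.trans (Nat.dvd_of_mem_primeFactors hp))
        omega
      have hq : (1 + 2 * p + 3 * p ^ 2) % 2 = 0 := by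
        obtain ⟨k, hk⟩ : ∃ k, p = 2 * k + 1 := ⟨p / 2, by omega⟩
        rw [hk, show 1 + 2 * (2 * k + 1) + 3 * (2 * k + 1) ^ 2 = 2 * (6 * k ^ 2 + 8 * k + 3) by ring]
        omega
      rw [Nat.mul_div_cancel' (Nat.dvd_of_mod_eq_zero hq)]
      simp [loc, Finset.sum_range_succ]
      ring
    have e2 : ∏ p ∈ n.primeFactors, (n.factorization p + 1) = 3 ^ n.primeFactors.card := by
      rw [← Finset.prod_const]
      exact Finset.prod_congr rfl (fun p hp => by rw [h2 p hp])
    have hG : ¬ 2 ∣ ∏ p ∈ n.primeFactors, ((1 + 2 * p + 3 * p ^ 2) / 2) := by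
      intro hd
      obtain ⟨p, hp, hd⟩ := (Nat.Prime.prime Nat.prime_two).exists_mem_finset_dvd hd
      have hp2 : p % 2 = 1 := by
        have : ¬ 2 ∣ p := fun h => hodd (h.trans (Nat.dvd_of_mem_primeFactors hp))
        omega
      obtain ⟨k, hk⟩ : ∃ k, p = 2 * k + 1 := ⟨p / 2, by omega⟩
      rw [hk, show 1 + 2 * (2 * k + 1) + 3 * (2 * k + 1) ^ 2 = 2 * (2 * (3 * k ^ 2 + 4 * k + 1) + 1)
        by ring, Nat.mul_div_cancel_left _ two_pos] at hd
      omega
    rw [e1, e2] at htot
    set G := ∏ p ∈ n.primeFactors, ((1 + 2 * p + 3 * p ^ 2) / 2) with hGdef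
    set r := n.primeFactors.card with hr
    have hr0 : r ≠ 0 := by
      intro h0
      rw [hr, Finset.card_eq_zero, Nat.primeFactors_eq_empty] at h0
      rcases h0 with h0 | h0
      · omega
      · exact fix_ne_one hfix h0
    have h3r := three_pow_mod r
    have hn2 : n % 2 = 1 := by omega
    have hG2 : G % 2 = 1 := by omega
    have hcase : r = 1 ∨ r = 2 ∨ 3 ≤ r := by omega
    rcases hcase with h | h | h
    · rw [h] at htot
      norm_num at htot
      omega
    · rw [h] at htot
      norm_num at htot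
      omega
    · obtain ⟨t, ht⟩ : ∃ t, r = t + 3 := ⟨r - 3, by omega⟩
      have h8 : 8 ∣ n * (1 + 3 ^ r) := by
        rw [← htot, ht, pow_add]
        exact Dvd.intro_left (2 ^ t * G) (by ring)
      have h8' : n * (1 + 3 ^ r) % 8 = 0 := Nat.mod_eq_zero_of_dvd h8
      rw [Nat.mul_mod, Nat.add_mod, h3r] at h8'
      have hn8 : n % 8 = 1 ∨ n % 8 = 3 ∨ n % 8 = 5 ∨ n % 8 = 7 := by omega
      split_ifs at h8' <;> rcases hn8 with h | h | h | h <;> rw [h] at h8' <;> norm_num at h8'
  · push Not at hev
    obtain ⟨q, hq, hqo⟩ := hev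
    have hsq : ¬ IsSquare n := by
      rintro ⟨m, hm⟩
      apply hqo
      have hm0 : m ≠ 0 := by
        rintro rfl
        omega
      rw [hm, Nat.factorization_mul hm0 hm0]
      exact ⟨m.factorization q, by simp⟩
    rw [Nat.squarefree_iff_factorization_le_one hn.ne']
    intro p
    by_cases hp : p ∈ n.primeFactors
    · have := exp_mod_four hn hfix hsq hp
      have := hlt p hp
      omega
    · rw [← Nat.support_factorization, Finsupp.notMem_support_iff] at hp
      omega

theorem no_three_sorted {x y z : ℕ} (hx : x.Prime) (hy : y.Prime) (hz : z.Prime) (h5 : 4 < x)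
    (hxy : x < y) (hyz : y < z) (h : (1 + 2 * x) * (1 + 2 * y) * (1 + 2 * z) = 9 * (x * y * z)) :
    False := by
  have hx12 : x < 13 := by
    by_contra hge
    push Not at hge
    have h1 : 13 * (1 + 2 * x) ≤ 27 * x := by omega
    have h2 : 13 * (1 + 2 * y) ≤ 27 * y := by omega
    have h3 : 13 * (1 + 2 * z) ≤ 27 * z := by omega
    have h4 : (13 * (1 + 2 * x)) * (13 * (1 + 2 * y)) * (13 * (1 + 2 * z))
        ≤ (27 * x) * (27 * y) * (27 * z) :=
      Nat.mul_le_mul (Nat.mul_le_mul h1 h2) h3
    have h5' : 0 < x * y * z := Nat.mul_pos (Nat.mul_pos hx.pos hy.pos) hz.pos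
    nlinarith
  have hxc : x = 5 ∨ x = 7 ∨ x = 11 := by
    interval_cases x <;> first | omega | (exfalso; revert hx; norm_num)
  rcases hxc with rfl | rfl | rfl
  · have hy45 : y < 45 := by
      by_contra hge
      push Not at hge
      nlinarith
    interval_cases y
    all_goals try omega
    all_goals try (exfalso; revert hy; norm_num; done)
    · have hz' : z = 517 := by omega
      subst hz'
      revert hz; norm_num
    · have hz' : z = 77 := by omega
      subst hz'
      revert hz; norm_num
    · have hz' : z = 55 := by omega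
      subst hz'
      revert hz; norm_num
  · have hy21 : y < 21 := by
      by_contra hge
      push Not at hge
      nlinarith
    interval_cases y
    all_goals try omega
    all_goals try (exfalso; revert hy; norm_num; done)
    · have hz' : z = 115 := by omega
      subst hz'
      revert hz; norm_num
    · have hz' : z = 45 := by omega
      subst hz'
      revert hz; norm_num
    · have hz' : z = 25 := by omega
      subst hz'
      revert hz; norm_num
  · have hy21 : y < 21 := by
      by_contra hge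
      push Not at hge
      nlinarith
    interval_cases y <;> omega

theorem no_three {x y z : ℕ} (hx : x.Prime) (hy : y.Prime) (hz : z.Prime) (hx5 : 4 < x)
    (hy5 : 4 < y) (hz5 : 4 < z) (hxy : x ≠ y) (hxz : x ≠ z) (hyz : y ≠ z)
    (h : (1 + 2 * x) * (1 + 2 * y) * (1 + 2 * z) = 9 * (x * y * z)) : False := by
  rcases lt_or_gt_of_ne hxy with h1 | h1 <;> rcases lt_or_gt_of_ne hxz with h2 | h2 <;>
    rcases lt_or_gt_of_ne hyz with h3 | h3
  · exact no_three_sorted hx hy hz hx5 h1 h3 h
  · exact no_three_sorted hx hz hy hx5 h2 h3 (by linarith [h, mul_comm y z])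
  · omega
  · exact no_three_sorted hz hx hy hz5 h2 h1 (by linarith [h])
  · exact no_three_sorted hy hx hz hy5 h1 h2 (by linarith [h])
  · omega
  · exact no_three_sorted hy hz hx hy5 h3 h2 (by linarith [h])
  · exact no_three_sorted hz hy hx hz5 h3 h1 (by linarith [h])

theorem squarefree_five {n : ℕ} (hs : Squarefree n) (hfix : properSum n = n) (h21 : n ≠ 21) :
    5 ≤ n.primeFactors.card := by
  have hn : 0 < n := Nat.pos_of_ne_zero hs.ne_zero
  have h3 : ¬ 3 ∣ n := fun h => h21 (three_fix hn hfix h)
  have hodd := odd_fix hn hfix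
  have ho := squarefree_odd hs hfix h21
  have hf := fix_squarefree hs hfix
  have hprod : ∏ p ∈ n.primeFactors, p = n := Nat.prod_primeFactors_of_squarefree hs
  by_contra hlt
  push Not at hlt
  obtain ⟨k, hk⟩ := ho
  have hcase : n.primeFactors.card = 1 ∨ n.primeFactors.card = 3 := by omega
  rcases hcase with h | h
  · obtain ⟨x, hx⟩ := Finset.card_eq_one.1 h
    have hxp : x.Prime := Nat.prime_of_mem_primeFactors (by rw [hx]; simp)
    rw [h] at hf
    rw [hx, Finset.prod_singleton] at hprod hf
    have := hxp.two_le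
    omega
  · obtain ⟨x, y, z, hxy, hxz, hyz, hS⟩ := Finset.card_eq_three.1 h
    have hbig : ∀ p ∈ n.primeFactors, p.Prime ∧ 4 < p := by
      intro p hp
      have hpp := Nat.prime_of_mem_primeFactors hp
      have hd := Nat.dvd_of_mem_primeFactors hp
      refine ⟨hpp, ?_⟩
      by_contra hle
      push Not at hle
      have := hpp.two_le
      interval_cases p
      · exact hodd hd
      · exact h3 hd
      · revert hpp; norm_num
    rw [h] at hf
    have hx := hbig x (by rw [hS]; simp)
    have hy := hbig y (by rw [hS]; simp)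
    have hz := hbig z (by rw [hS]; simp)
    have e1 : ∏ p ∈ n.primeFactors, p = x * (y * z) := by
      rw [hS, Finset.prod_insert (by simp [hxy, hxz]), Finset.prod_pair hyz]
    have e2 : ∏ p ∈ n.primeFactors, (1 + 2 * p) = (1 + 2 * x) * ((1 + 2 * y) * (1 + 2 * z)) := by
      rw [hS, Finset.prod_insert (by simp [hxy, hxz]), Finset.prod_pair hyz]
    rw [e2] at hf
    rw [e1] at hprod
    refine no_three hx.1 hy.1 hz.1 hx.2 hy.2 hz.2 hxy hxz hyz ?_
    rw [← hprod] at hf
    norm_num at hf
    linarith

theorem prod_mod_eight (S : Finset ℕ) (hS : ∀ p ∈ S, p % 2 = 1) :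
    ((∏ p ∈ S, (1 + 2 * p)) % 8 = 1 ∧ S.card % 2 = 0 ∧ (∏ p ∈ S, p) % 4 = 1) ∨
    ((∏ p ∈ S, (1 + 2 * p)) % 8 = 3 ∧ S.card % 2 = 1 ∧ (∏ p ∈ S, p) % 4 = 1) ∨
    ((∏ p ∈ S, (1 + 2 * p)) % 8 = 7 ∧ S.card % 2 = 1 ∧ (∏ p ∈ S, p) % 4 = 3) ∨
    ((∏ p ∈ S, (1 + 2 * p)) % 8 = 5 ∧ S.card % 2 = 0 ∧ (∏ p ∈ S, p) % 4 = 3) := by
  induction S using Finset.induction_on with
  | empty => simp
  | insert a S ha ih =>
    have hih := ih (fun p hp => hS p (Finset.mem_insert_of_mem hp))
    have ha2 := hS a (Finset.mem_insert_self _ _)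
    rw [Finset.prod_insert ha, Finset.prod_insert ha, Finset.card_insert_of_notMem ha,
      Nat.mul_mod, Nat.mul_mod a]
    have h4 : a % 4 = 1 ∨ a % 4 = 3 := by omega
    have h8 : (a % 4 = 1 ∧ (1 + 2 * a) % 8 = 3) ∨ (a % 4 = 3 ∧ (1 + 2 * a) % 8 = 7) := by omega
    rcases h8 with ⟨e1, e2⟩ | ⟨e1, e2⟩ <;>
      rcases hih with ⟨f1, f2, f3⟩ | ⟨f1, f2, f3⟩ | ⟨f1, f2, f3⟩ | ⟨f1, f2, f3⟩ <;>
      rw [e1, e2, f1, f3] <;> omega

theorem squarefree_mod_eight {n : ℕ} (hs : Squarefree n) (hfix : properSum n = n)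
    (h21 : n ≠ 21) : n % 8 = 7 := by
  have hn : 0 < n := Nat.pos_of_ne_zero hs.ne_zero
  have hodd := odd_fix hn hfix
  have ho := squarefree_odd hs hfix h21
  have h5 := squarefree_five hs hfix h21
  have hf := fix_squarefree hs hfix
  have hprod : ∏ p ∈ n.primeFactors, p = n := Nat.prod_primeFactors_of_squarefree hs
  have hS : ∀ p ∈ n.primeFactors, p % 2 = 1 := by
    intro p hp
    have : ¬ 2 ∣ p := fun h => hodd (h.trans (Nat.dvd_of_mem_primeFactors hp))
    omega
  have h := prod_mod_eight n.primeFactors hS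
  rw [hf, hprod] at h
  obtain ⟨t, ht⟩ : ∃ t, n.primeFactors.card = t + 3 := ⟨n.primeFactors.card - 3, by omega⟩
  have h8 : n * (1 + 2 ^ n.primeFactors.card) % 8 = n % 8 := by
    rw [ht, pow_add, show n * (1 + 2 ^ t * 2 ^ 3) = n + 8 * (n * 2 ^ t) by ring]
    omega
  rw [h8] at h
  obtain ⟨k, hk⟩ := ho
  omega

theorem tau_mod_four (k : ℕ → ℕ) (S : Finset ℕ) (hS : ∀ p ∈ S, k p % 2 = 0) :
    ((∏ p ∈ S, (k p + 1)) % 4 = 1 ∧ (S.filter (fun p => k p % 4 = 2)).card % 2 = 0) ∨
    ((∏ p ∈ S, (k p + 1)) % 4 = 3 ∧ (S.filter (fun p => k p % 4 = 2)).card % 2 = 1) := by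
  induction S using Finset.induction_on with
  | empty => simp
  | insert a S ha ih =>
    have hih := ih (fun p hp => hS p (Finset.mem_insert_of_mem hp))
    have ha2 := hS a (Finset.mem_insert_self _ _)
    rw [Finset.prod_insert ha, Finset.filter_insert, Nat.mul_mod]
    by_cases h : k a % 4 = 2
    · rw [if_pos h, Finset.card_insert_of_notMem (by simp [ha])]
      have h1 : (k a + 1) % 4 = 3 := by omega
      rcases hih with ⟨f1, f2⟩ | ⟨f1, f2⟩ <;> rw [h1, f1] <;> omega
    · rw [if_neg h]
      have h1 : (k a + 1) % 4 = 1 := by omega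
      rcases hih with ⟨f1, f2⟩ | ⟨f1, f2⟩ <;> rw [h1, f1] <;> omega

theorem square_case {n : ℕ} (hn : 0 < n) (hfix : properSum n = n) (hsq : IsSquare n) :
    Odd (n.primeFactors.filter (fun p => n.factorization p % 4 = 2)).card := by
  have hodd := odd_fix hn hfix
  have htot := fix_total hn hfix
  rw [total_eq_prod hn.ne', Nat.card_divisors hn.ne'] at htot
  have hev : ∀ p ∈ n.primeFactors, n.factorization p % 2 = 0 := by
    intro p _
    obtain ⟨m, hm⟩ := hsq
    have hm0 : m ≠ 0 := by
      rintro rfl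
      omega
    rw [hm, Nat.factorization_mul hm0 hm0]
    simp only [Finsupp.coe_add, Pi.add_apply]
    omega
  have hp2 : ∀ p ∈ n.primeFactors, p % 2 = 1 := by
    intro p hp
    have : ¬ 2 ∣ p := fun h => hodd (h.trans (Nat.dvd_of_mem_primeFactors hp))
    omega
  have hτ := tau_mod_four n.factorization n.primeFactors hev
  have hdv : 2 ^ (n.primeFactors.filter (fun p => n.factorization p % 4 = 2)).card ∣
      ∏ p ∈ n.primeFactors, loc p (n.factorization p) := by
    rw [← Finset.prod_filter_mul_prod_filter_not n.primeFactors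
      (fun p => n.factorization p % 4 = 2)]
    apply Dvd.dvd.mul_right
    rw [← Finset.prod_const]
    apply Finset.prod_dvd_prod_of_dvd
    intro p hp
    rw [Finset.mem_filter] at hp
    have h := loc_mod_two (hp2 p hp.1) (n.factorization p + 1)
    rw [if_neg (by omega)] at h
    exact Nat.dvd_of_mod_eq_zero h
  by_contra hne
  rw [Nat.not_odd_iff_even] at hne
  obtain ⟨c, hc⟩ := hne
  have hn2 : n % 2 = 1 := by omega
  rcases hτ with ⟨f1, f2⟩ | ⟨f1, f2⟩
  · by_cases hc0 : c = 0
    · have hemp : n.primeFactors.filter (fun p => n.factorization p % 4 = 2) = ∅ := by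
        rw [← Finset.card_eq_zero]
        omega
      have hdd : 2 ∣ ∏ p ∈ n.primeFactors, loc p (n.factorization p) := by
        rw [htot]
        exact Dvd.dvd.mul_left (by omega) _
      obtain ⟨p, hp, hd⟩ := (Nat.Prime.prime Nat.prime_two).exists_mem_finset_dvd hdd
      have hk : n.factorization p % 4 ≠ 2 := by
        intro h
        have : p ∈ n.primeFactors.filter (fun p => n.factorization p % 4 = 2) := by
          rw [Finset.mem_filter]
          exact ⟨hp, h⟩
        rw [hemp] at this
        simp at this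
      have h := loc_mod_two (hp2 p hp) (n.factorization p + 1)
      have := hev p hp
      rw [if_pos (by omega)] at h
      have hd' : loc p (n.factorization p) % 2 = 0 := Nat.mod_eq_zero_of_dvd hd
      rw [loc] at hd'
      omega
    · have h4 : 4 ∣ n * (1 + ∏ p ∈ n.primeFactors, (n.factorization p + 1)) := by
        rw [← htot]
        refine dvd_trans ?_ hdv
        obtain ⟨t, ht⟩ : ∃ t, (n.primeFactors.filter
            (fun p => n.factorization p % 4 = 2)).card = t + 2 :=
          ⟨2 * c - 2, by omega⟩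
        rw [ht, pow_add]
        exact Dvd.intro_left _ rfl
      have h4' := Nat.mod_eq_zero_of_dvd h4
      rw [Nat.mul_mod, Nat.add_mod, f1] at h4'
      have : n % 4 = 1 ∨ n % 4 = 3 := by omega
      rcases this with h | h <;> rw [h] at h4' <;> norm_num at h4'
  · omega

end Pool.Agent.V113.FP
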